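import Mathlib

set_option autoImplicit false

namespace Pool.Agent.Results.MP_521650_an.Example

open Filter Topology

/-- φ_a = φ_(a 1) ∘ ... ∘ φ_(a n) -/
def act {l : ℕ} (φ : Fin l → ℝ → ℝ) (a : List (Fin l)) (x : ℝ) : ℝ := a.foldr (fun i y => φ i y) x

/-- the set W_s(z) -/
def W {l : ℕ} (φ : Fin l → ℝ → ℝ) (X : Set ℝ) (s z : ℝ) : Set ℝ :=
  {x | {a : List (Fin l) | |x - act φ a z| ≤ Metric.diam (act φ a '' X) ^ s}.Infinite}

noncomputable def φ : Fin 5 → ℝ → ℝ :=
  ![fun x => x / 2, fun x => (x + 1) / 2, fun x => (x + √2) / 2, fun x => (x + 1 + √2) / 2,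
    fun x => 1 + √2 - x / 2]

def X : Set ℝ := Set.Icc 0 (1 + √2)

lemma t1 : 1 < √2 := Real.one_lt_sqrt_two
lemma t2 : √2 < 2 := by
  rw [Real.sqrt_lt' (by norm_num)]; norm_num

lemma φ_dist (i : Fin 5) (x y : ℝ) : |φ i x - φ i y| = |x - y| / 2 := by
  have h : φ i x - φ i y = (x - y) / 2 ∨ φ i x - φ i y = -((x - y) / 2) := by
    fin_cases i <;> simp [φ] <;> first | (left; ring1) | (right; ring1)
  rcases h with h | h <;> simp [h, abs_div]

lemma φ_mem (i : Fin 5) {x : ℝ} (h : x ∈ X) : φ i x ∈ X := by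
  have := t1
  obtain ⟨h1, h2⟩ := h
  fin_cases i <;> simp [φ, X] <;> (try constructor) <;> linarith

lemma act_dist (a : List (Fin 5)) (x y : ℝ) : |act φ a x - act φ a y| = |x - y| / 2 ^ a.length := by
  induction a with
  | nil => simp [act]
  | cons i a ih =>
    simp only [act, List.foldr_cons, List.length_cons] at ih ⊢
    rw [φ_dist, ih, pow_succ, div_div]

lemma act_mem (a : List (Fin 5)) {x : ℝ} (h : x ∈ X) : act φ a x ∈ X := by
  induction a with
  | nil => exact h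
  | cons i a ih => exact φ_mem i ih

lemma z_mem : (0 : ℝ) ∈ X := ⟨le_rfl, by linarith [t1]⟩

lemma diam_ge (a : List (Fin 5)) : 1 / 2 ^ a.length ≤ Metric.diam (act φ a '' X) := by
  have hb : Bornology.IsBounded (act φ a '' X) :=
    (Metric.isBounded_Icc 0 (1 + √2)).subset (by rintro _ ⟨x, hx, rfl⟩; exact act_mem a hx)
  have := Metric.dist_le_diam_of_mem hb ⟨1, ⟨zero_le_one, by linarith [t1]⟩, rfl⟩ ⟨0, z_mem, rfl⟩
  rw [Real.dist_eq, act_dist] at this
  simpa using this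

lemma diam_le (a : List (Fin 5)) : Metric.diam (act φ a '' X) ≤ 3 / 2 ^ a.length := by
  refine Metric.diam_le_of_forall_dist_le (by positivity) ?_
  rintro _ ⟨x, hx, rfl⟩ _ ⟨y, hy, rfl⟩
  rw [Real.dist_eq, act_dist]
  refine div_le_div_of_nonneg_right ?_ (by positivity)
  rw [abs_le]; constructor <;> linarith [hx.1, hx.2, hy.1, hy.2, t2]

lemma word (n : ℕ) : ∀ A B : ℕ, A < 2 ^ n → B < 2 ^ n →
    ∃ a : List (Fin 5), a.length = n ∧ act φ a 0 = (A + B * √2) / 2 ^ n := by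
  induction n with
  | zero =>
    intro A B hA hB
    obtain rfl : A = 0 := by omega
    obtain rfl : B = 0 := by omega
    exact ⟨[], rfl, by simp [act]⟩
  | succ n ih =>
    intro A B hA hB
    rw [pow_succ] at hA hB
    have h2 : (2 : ℝ) ^ n ≠ 0 := by positivity
    rcases lt_or_ge A (2 ^ n) with h | h <;> rcases lt_or_ge B (2 ^ n) with h' | h'
    · obtain ⟨a, e1, e2⟩ := ih A B h h'
      refine ⟨0 :: a, by simp [e1], ?_⟩
      show act φ a 0 / 2 = _
      rw [e2]; field_simp; ring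
    · obtain ⟨B, rfl⟩ := Nat.exists_eq_add_of_le h'
      obtain ⟨a, e1, e2⟩ := ih A B h (by omega)
      refine ⟨2 :: a, by simp [e1], ?_⟩
      show (act φ a 0 + √2) / 2 = _
      rw [e2]; push_cast; field_simp; ring
    · obtain ⟨A, rfl⟩ := Nat.exists_eq_add_of_le h
      obtain ⟨a, e1, e2⟩ := ih A B (by omega) h'
      refine ⟨1 :: a, by simp [e1], ?_⟩
      show (act φ a 0 + 1) / 2 = _
      rw [e2]; push_cast; field_simp; ring
    · obtain ⟨A, rfl⟩ := Nat.exists_eq_add_of_le h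
      obtain ⟨B, rfl⟩ := Nat.exists_eq_add_of_le h'
      obtain ⟨a, e1, e2⟩ := ih A B (by omega) (by omega)
      refine ⟨3 :: a, by simp [e1], ?_⟩
      show (act φ a 0 + 1 + √2) / 2 = _
      rw [e2]; push_cast; field_simp; ring

lemma pell (N : ℕ) : ∃ p q : ℕ, N < q ∧ p ^ 2 = 2 * q ^ 2 + 1 := by
  induction N with
  | zero => exact ⟨3, 2, by norm_num, by norm_num⟩
  | succ N ih =>
    obtain ⟨p, q, h1, h2⟩ := ih
    exact ⟨3 * p + 4 * q, 2 * p + 3 * q, by omega, by nlinarith⟩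

lemma approx {p q : ℕ} (hq : 0 < q) (h : p ^ 2 = 2 * q ^ 2 + 1) (y : ℝ) :
    ∃ (a : ℤ) (j : ℕ), j < q ∧ 0 ≤ y - a - j * √2 ∧ q * (y - a - j * √2) ≤ 2 := by
  set m := ⌊q * y⌋ with hm
  have q0 : (0 : ℤ) < q := by exact_mod_cast hq
  obtain ⟨j, hj⟩ := Int.eq_ofNat_of_zero_le (Int.emod_nonneg (m * p) q0.ne')
  have j1 : (j : ℤ) < q := hj ▸ Int.emod_lt_of_pos _ q0
  have h' : (p : ℤ) ^ 2 = 2 * q ^ 2 + 1 := by exact_mod_cast h
  have e := Int.emod_add_mul_ediv (m * p) q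
  rw [hj] at e
  have e2 : (j : ℤ) * p + q * (m * p / q * p - 2 * q * m) = m := by
    linear_combination (p : ℤ) * e + m * h'
  refine ⟨m * p / q * p - 2 * q * m, j, by exact_mod_cast j1, ?_⟩
  set a := m * p / q * p - 2 * q * m
  have e3 : (j : ℝ) * p + q * a = m := by exact_mod_cast e2
  have hr : (p : ℝ) ^ 2 = 2 * q ^ 2 + 1 := by exact_mod_cast h
  have s2 : √2 ^ 2 = 2 := Real.sq_sqrt (by norm_num)
  have qr : (0 : ℝ) < q := by exact_mod_cast hq
  have jr : (j : ℝ) ≤ q := by exact_mod_cast j1.le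
  have j0 : (0 : ℝ) ≤ j := Nat.cast_nonneg j
  have p0 : (0 : ℝ) ≤ p := Nat.cast_nonneg p
  have f1 : (p - q * √2) * (p + q * √2) = 1 := by linear_combination hr - (q : ℝ) ^ 2 * s2
  have f0 : q ≤ p + q * √2 := by nlinarith [t1]
  have f2 : 0 < p - q * √2 := by
    by_contra hc
    nlinarith
  have f3 : j * (p - q * √2) ≤ 1 := by nlinarith
  have g1 := Int.floor_le (q * y)
  have g2 := Int.lt_floor_add_one (q * y)
  have e4 : q * (y - a - j * √2) = (q * y - m) + j * (p - q * √2) := by linear_combination -e3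
  refine ⟨nonneg_of_mul_nonneg_right (a := (q : ℝ)) ?_ qr, ?_⟩
  · rw [e4]; nlinarith
  · rw [e4]; linarith

lemma inner {x : ℝ} (h0 : 0 < x) (h1 : x < 1 + √2) (N : ℕ) : ∃ a : List (Fin 5), N ≤ a.length ∧
    |x - act φ a 0| ≤ Metric.diam (act φ a '' X) ^ (3 / 2 : ℝ) := by
  have t := t1
  have t' := t2
  set u := x / (1 + √2) with hu
  have u0 : 0 < u := by positivity
  have u1 : u < 1 := by rw [hu, div_lt_one (by linarith)]; exact h1
  have xu : x = u * (1 + √2) := by rw [hu]; field_simp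
  set c := min u (1 - u) with hc
  have c0 : 0 < c := lt_min u0 (by linarith)
  have c1 : c ≤ u := min_le_left _ _
  have c2 : c ≤ 1 - u := min_le_right _ _
  obtain ⟨p, q, hq, hp⟩ := pell (2 ^ N + ⌈32 / c⌉₊)
  have q1 : (2 : ℝ) ^ N + 32 / c ≤ q := by
    have : ((2 ^ N + ⌈32 / c⌉₊ : ℕ) : ℝ) ≤ q := by exact_mod_cast hq.le
    push_cast at this
    linarith [Nat.le_ceil (32 / c)]
  have pN : (1 : ℝ) ≤ 2 ^ N := one_le_pow₀ (by norm_num)
  have c3 : 0 < 32 / c := by positivity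
  have q2 : 32 ≤ q * c := by rw [← div_le_iff₀ c0]; linarith
  obtain ⟨n, n1, n2⟩ := exists_nat_pow_near (x := 8 * q / c) (y := (2 : ℝ))
    (by rw [le_div_iff₀ c0]; linarith) one_lt_two
  rw [le_div_iff₀ c0] at n1
  rw [div_lt_iff₀ c0, pow_succ] at n2
  have pn : (0 : ℝ) < 2 ^ n := by positivity
  set b := ⌊2 ^ n * u⌋₊ with hb
  have b1 : (b : ℝ) ≤ 2 ^ n * u := Nat.floor_le (by positivity)
  have b2 : 2 ^ n * u < b + 1 := Nat.lt_floor_add_one _
  obtain ⟨a, j, j1, e1, e2⟩ := approx (lt_of_le_of_lt (Nat.zero_le _) hq) hp (2 ^ n * x - b * √2)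
  have jr : (j : ℝ) < q := by exact_mod_cast j1
  have j0 : (0 : ℝ) ≤ j := Nat.cast_nonneg j
  have e3 : 2 ^ n * x - b * √2 - a - j * √2 ≤ 2 := by nlinarith
  have k1 : 2 ^ n * c ≤ 2 ^ n * u := mul_le_mul_of_nonneg_left c1 pn.le
  have k2 : 2 ^ n * c ≤ 2 ^ n * (1 - u) := mul_le_mul_of_nonneg_left c2 pn.le
  have k3 : 2 ^ n * x - b * √2 = 2 ^ n * u + (2 ^ n * u - b) * √2 := by rw [xu]; ring
  have k4 : 0 ≤ (2 ^ n * u - b) * √2 := mul_nonneg (by linarith) (by linarith)
  have k5 : (2 ^ n * u - b) * √2 ≤ 1 * 2 := mul_le_mul (by linarith) t'.le (by linarith) zero_le_one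
  have k6 : j * √2 ≤ q * 2 := mul_le_mul jr.le t'.le (by linarith) (by linarith)
  have k7 : 0 ≤ j * √2 := by positivity
  have a0 : (0 : ℝ) ≤ a := by linarith
  obtain ⟨A, rfl⟩ := Int.eq_ofNat_of_zero_le (show 0 ≤ a by exact_mod_cast a0)
  simp only [Int.cast_natCast] at e1 e2 e3 a0
  obtain ⟨w, w1, w2⟩ := word n A (b + j)
    (by have : (A : ℝ) < 2 ^ n := by linarith
        exact_mod_cast this)
    (by have : (b : ℝ) + j < 2 ^ n := by linarith
        exact_mod_cast this)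
  refine ⟨w, ?_, ?_⟩
  · rw [w1]
    refine (pow_le_pow_iff_right₀ (one_lt_two (α := ℝ))).mp ?_
    nlinarith
  · refine le_trans ?_ (Real.rpow_le_rpow (by positivity) (diam_ge w) (by norm_num))
    have e5 : x - act φ w 0 = (2 ^ n * x - b * √2 - A - j * √2) / 2 ^ n := by
      rw [w2]; push_cast; field_simp; ring
    rw [w1, e5, abs_of_nonneg (by positivity), show (3 / 2 : ℝ) = 1 / 2 + 1 by norm_num,
      Real.rpow_add_one (by positivity), ← Real.sqrt_eq_rpow, mul_one_div]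
    refine div_le_div_of_nonneg_right (Real.le_sqrt_of_sq_le ?_) pn.le
    rw [le_div_iff₀ pn]
    set d := 2 ^ n * x - b * √2 - A - j * √2
    have m1 : (q * d) ^ 2 ≤ 2 ^ 2 := pow_le_pow_left₀ (by positivity) e2 2
    have m2 : 4 * 2 ^ n ≤ (q : ℝ) ^ 2 := by
      refine le_of_mul_le_mul_right ?_ c0
      nlinarith
    nlinarith [mul_le_mul_of_nonneg_left m2 (sq_nonneg d)]

lemma inf_of {S : Set (List (Fin 5))} (h : ∀ N, ∃ a ∈ S, N ≤ a.length) : S.Infinite := by
  refine Set.Infinite.of_image List.length (Set.infinite_of_forall_exists_gt fun N => ?_)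
  obtain ⟨a, ha, h⟩ := h (N + 1)
  exact ⟨_, ⟨a, ha, rfl⟩, h⟩

theorem result : ∃ (l : ℕ) (φ : Fin l → ℝ → ℝ) (X : Set ℝ) (z s : ℝ), 2 ≤ l ∧
    (∀ i, Function.Injective (φ i) ∧ ∃ c < 1, ∀ x y, |φ i x - φ i y| ≤ c * |x - y|) ∧
    X.Nonempty ∧ IsCompact X ∧ X = ⋃ i, φ i '' X ∧ X.Nontrivial ∧ z ∈ X ∧ 1 < s ∧
    W φ X s z = X := by
  have t := t1
  have key : W φ X (3 / 2) 0 = X := by
    apply Set.Subset.antisymm
    · intro x hx
      refine (show IsClosed X from isClosed_Icc).closure_subset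
        (Metric.mem_closure_iff.mpr fun ε hε => ?_)
      obtain ⟨N, hN⟩ := exists_pow_lt_of_lt_one (show 0 < min ε 1 / 3 by positivity)
        (show (1 : ℝ) / 2 < 1 by norm_num)
      obtain ⟨a, ha, hl⟩ := hx.exists_notMem_finite (List.finite_length_lt (Fin 5) N)
      refine ⟨_, act_mem a z_mem, lt_of_le_of_lt ha ?_⟩
      have h1 := pow_le_pow_of_le_one (show (0 : ℝ) ≤ 1 / 2 by norm_num) (by norm_num)
        (not_lt.mp hl)
      have h2 := diam_le a
      rw [one_div_pow] at h1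
      have h3 : Metric.diam (act φ a '' X) < min ε 1 := by
        rw [div_eq_mul_one_div] at h2; linarith
      rcases (Metric.diam_nonneg (s := act φ a '' X)).eq_or_lt with h | h
      · rw [← h, Real.zero_rpow (by norm_num)]; exact hε
      · refine lt_of_le_of_lt ?_ (h3.trans_le (min_le_left _ _))
        exact (Real.rpow_le_rpow_of_exponent_ge h (h3.le.trans (min_le_right _ _))
          (by norm_num)).trans (Real.rpow_one _).le
    · intro x hx
      refine inf_of fun N => ?_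
      rcases hx.1.eq_or_lt with h0 | h0
      · obtain ⟨a, h1, h2⟩ := word N 0 0 (by positivity) (by positivity)
        refine ⟨a, ?_, h1.ge⟩
        simp only [Set.mem_ofPred_eq, h2, ← h0]
        simpa using Real.rpow_nonneg Metric.diam_nonneg _
      rcases hx.2.eq_or_lt with h1 | h1
      · obtain ⟨a, h1', h2⟩ := word N 0 0 (by positivity) (by positivity)
        refine ⟨4 :: a, ?_, by simp [h1']⟩
        have : act φ (4 :: a) 0 = x := by
          show 1 + √2 - act φ a 0 / 2 = x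
          rw [h2, h1]; simp
        simp only [Set.mem_ofPred_eq, this]
        simpa using Real.rpow_nonneg Metric.diam_nonneg _
      · obtain ⟨a, h2, h3⟩ := inner h0 h1 N
        exact ⟨a, h3, h2⟩
  refine ⟨5, φ, X, 0, 3 / 2, by norm_num, fun i => ⟨fun x y h => ?_, 1 / 2, by norm_num,
    fun x y => by rw [φ_dist]; linarith⟩, ⟨0, z_mem⟩, isCompact_Icc, ?_,
    ⟨0, z_mem, 1, ⟨zero_le_one, by linarith⟩, zero_ne_one⟩, z_mem, by norm_num, key⟩
  · have := φ_dist i x y
    rw [h, sub_self, abs_zero] at this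
    exact sub_eq_zero.mp (abs_eq_zero.mp (by linarith))
  · apply Set.Subset.antisymm
    · intro x hx
      rcases le_total x ((1 + √2) / 2) with h | h
      · exact Set.mem_iUnion.mpr ⟨0, 2 * x, ⟨by linarith [hx.1], by linarith⟩, by simp [φ]⟩
      · exact Set.mem_iUnion.mpr ⟨3, 2 * x - 1 - √2, ⟨by linarith, by linarith [hx.2]⟩,
          by simp [φ]; ring⟩
    · intro x hx
      obtain ⟨i, y, hy, rfl⟩ := Set.mem_iUnion.mp hx
      exact φ_mem i hy

end Pool.Agent.Results.MP_521650_an.Example
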